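import Pool.Agent.H889R3.RQ.Stmts
import Pool.Agent.H620R2.GaugeQ.Q1

/-! helper116: task B3 of project H889-RQ. -/

set_option autoImplicit false

namespace Pool.Agent.H116R3.RQ

open Pool.Agent.NPC Finset H568R2 Pool.Agent.H620R2.Gauge

theorem circAct_norm (A : Oracle) {m : ℕ} : ∀ (l : List Gate) (ψ : (Fin m → Bool) → ℝ),
    ∑ s, circAct A l ψ s ^ 2 = ∑ s, ψ s ^ 2
  | [], _ => rfl
  | g :: l, ψ => by
    rw [circAct, circAct_norm A l, gateAct_norm]

theorem initSt_norm (m : ℕ) : ∑ s, initSt m s ^ 2 = 1 := by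
  unfold initSt
  rw [Finset.sum_eq_single (fun _ => false)]
  · simp
  · intro s _ hs
    rw [if_neg hs]
    norm_num
  · intro h
    exact absurd (Finset.mem_univ _) h

theorem b3 : Pool.Agent.H889R3.RQ.St_B3 := by
  intro A c
  unfold accProb
  constructor
  · refine Finset.sum_nonneg fun s _ => ?_
    split_ifs
    · exact sq_nonneg _
    · exact le_rfl
  · calc ∑ s : Fin c.1.length → Bool,
          (if rd s 0 then circAct A c.2 (initSt c.1.length) s ^ 2 else 0)
        ≤ ∑ s : Fin c.1.length → Bool, circAct A c.2 (initSt c.1.length) s ^ 2 := by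
          refine Finset.sum_le_sum fun s _ => ?_
          split_ifs
          · exact le_rfl
          · exact sq_nonneg _
      _ = 1 := by rw [circAct_norm, initSt_norm]

end Pool.Agent.H116R3.RQ
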